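import Mathlib
import Pool.Agent.H68R2.BP.Props2
import Pool.Agent.H68R2.KZ.TGrp

open scoped ComplexOrder InnerProductSpace ComplexConjugate Topology
open Finset Filter

noncomputable section

namespace H68R2.BP

open H759R2.Kad H744R2.KZ

namespace R_modaux

variable {H : Type} [NormedAddCommGroup H] [InnerProductSpace ℂ H] [CompleteSpace H]

/-- signed permutations -/
abbrev G (n : ℕ) := Equiv.Perm (Fin n) × (Fin n → ℤˣ)

/-- their product -/
def gm {n : ℕ} (g h : G n) : G n := (g.1 * h.1, fun i => g.2 (h.1 i) * h.2 i)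

theorem gm_left {n : ℕ} (g : G n) : Function.Bijective (gm g) := by
  refine (Finite.injective_iff_bijective).1 ?_
  intro a b hab
  have e1 : g.1 * a.1 = g.1 * b.1 := congrArg Prod.fst hab
  have e2 : (fun i => g.2 (a.1 i) * a.2 i) = fun i => g.2 (b.1 i) * b.2 i :=
    congrArg Prod.snd hab
  have h1 : a.1 = b.1 := mul_left_cancel e1
  refine Prod.ext h1 ?_
  funext i
  have := congrFun e2 i
  simp only [h1] at this
  exact mul_left_cancel this

theorem gm_right {n : ℕ} (g : G n) : Function.Bijective (fun h => gm h g) := by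
  refine (Finite.injective_iff_bijective).1 ?_
  intro a b hab
  have e1 : a.1 * g.1 = b.1 * g.1 := congrArg Prod.fst hab
  have e2 : (fun i => a.2 (g.1 i) * g.2 i) = fun i => b.2 (g.1 i) * g.2 i :=
    congrArg Prod.snd hab
  have h1 : a.1 = b.1 := mul_right_cancel e1
  refine Prod.ext h1 ?_
  funext i
  have h2 := congrFun e2 (g.1.symm i)
  simp only [Equiv.apply_symm_apply] at h2
  exact mul_right_cancel h2

/-- the unitaries -/
abbrev V {n : ℕ} (e : Fin n → Fin n → (H →L[ℂ] H)) (g : G n) : H →L[ℂ] H := T_grpaux.U e g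

/-- the averaged map -/
def Qm {n : ℕ} (P : (H →L[ℂ] H) →ₗ[ℂ] (H →L[ℂ] H)) (z : H →L[ℂ] H)
    (e : Fin n → Fin n → (H →L[ℂ] H)) : (H →L[ℂ] H) →ₗ[ℂ] (H →L[ℂ] H) where
  toFun x := ((Fintype.card (G n) : ℂ)⁻¹ * (Fintype.card (G n) : ℂ)⁻¹) •
    ∑ g : G n, ∑ h : G n, z * (star (V e g) * P (V e g * x * V e h) * star (V e h))
  map_add' x y := by
    rw [← smul_add, ← Finset.sum_add_distrib]
    congr 1
    apply Finset.sum_congr rfl
    intro g _
    rw [← Finset.sum_add_distrib]
    apply Finset.sum_congr rfl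
    intro h _
    rw [mul_add, add_mul, map_add, mul_add, add_mul, mul_add]
  map_smul' c x := by
    rw [RingHom.id_apply, smul_comm c]
    congr 1
    rw [Finset.smul_sum]
    apply Finset.sum_congr rfl
    intro g _
    rw [Finset.smul_sum]
    apply Finset.sum_congr rfl
    intro h _
    rw [mul_smul_comm, smul_mul_assoc, map_smul, mul_smul_comm, smul_mul_assoc, mul_smul_comm]

theorem Qm_apply {n : ℕ} (P : (H →L[ℂ] H) →ₗ[ℂ] (H →L[ℂ] H)) (z : H →L[ℂ] H)
    (e : Fin n → Fin n → (H →L[ℂ] H)) (x : H →L[ℂ] H) :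
    Qm P z e x = ((Fintype.card (G n) : ℂ)⁻¹ * (Fintype.card (G n) : ℂ)⁻¹) •
    ∑ g : G n, ∑ h : G n, z * (star (V e g) * P (V e g * x * V e h) * star (V e h)) := rfl

theorem norm_pr {z : H →L[ℂ] H} (hz : IsPr z) : ‖z‖ ≤ 1 := by
  have h := CStarRing.norm_star_mul_self (x := z)
  rw [hz.1, hz.2] at h
  by_contra hc
  push Not at hc
  nlinarith

theorem card_pos (n : ℕ) : (0 : ℝ) < Fintype.card (G n) := by
  have : 0 < Fintype.card (G n) := Fintype.card_pos_iff.2 ⟨(1, 1)⟩
  exact_mod_cast this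

theorem Qm_left {n : ℕ} (P : (H →L[ℂ] H) →ₗ[ℂ] (H →L[ℂ] H)) (z : H →L[ℂ] H)
    (e : Fin n → Fin n → (H →L[ℂ] H)) (he : MU e) (g₀ : G n) (hz : z * V e g₀ = V e g₀ * z)
    (x : H →L[ℂ] H) : Qm P z e (V e g₀ * x) = V e g₀ * Qm P z e x := by
  rw [Qm_apply, Qm_apply, mul_smul_comm]
  congr 1
  rw [Finset.mul_sum]
  conv_rhs => rw [← (gm_right g₀).sum_comp]
  apply Finset.sum_congr rfl
  intro g _
  rw [Finset.mul_sum]
  apply Finset.sum_congr rfl
  intro h _
  have h1 : V e (gm g g₀) = V e g * V e g₀ := (T_grpaux.U_mul he g g₀).symm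
  have h2 : V e g₀ * star (V e g₀) = 1 := T_grpaux.mul_star_U he g₀
  show z * (star (V e g) * P (V e g * (V e g₀ * x) * V e h) * star (V e h)) =
    V e g₀ * (z * (star (V e (gm g g₀)) * P (V e (gm g g₀) * x * V e h) * star (V e h)))
  rw [h1, star_mul, ← mul_assoc (V e g) (V e g₀) x]
  calc z * (star (V e g) * P (V e g * V e g₀ * x * V e h) * star (V e h))
      = z * ((V e g₀ * star (V e g₀)) * (star (V e g) * P (V e g * V e g₀ * x * V e h) *
        star (V e h))) := by rw [h2, one_mul]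
    _ = (z * V e g₀) * (star (V e g₀) * (star (V e g) * P (V e g * V e g₀ * x * V e h) *
        star (V e h))) := by simp only [mul_assoc]
    _ = _ := by rw [hz]; simp only [mul_assoc]

theorem Qm_right {n : ℕ} (P : (H →L[ℂ] H) →ₗ[ℂ] (H →L[ℂ] H)) (z : H →L[ℂ] H)
    (e : Fin n → Fin n → (H →L[ℂ] H)) (he : MU e) (g₀ : G n)
    (x : H →L[ℂ] H) : Qm P z e (x * V e g₀) = Qm P z e x * V e g₀ := by
  rw [Qm_apply, Qm_apply, smul_mul_assoc]
  congr 1
  rw [Finset.sum_mul]
  apply Finset.sum_congr rfl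
  intro g _
  rw [Finset.sum_mul]
  conv_rhs => rw [← (gm_left g₀).sum_comp]
  apply Finset.sum_congr rfl
  intro h _
  have h1 : V e (gm g₀ h) = V e g₀ * V e h := (T_grpaux.U_mul he g₀ h).symm
  have h2 : star (V e g₀) * V e g₀ = 1 := T_grpaux.star_mul_U he g₀
  rw [h1, star_mul]
  calc z * (star (V e g) * P (V e g * (x * V e g₀) * V e h) * star (V e h))
      = z * (star (V e g) * P (V e g * (x * V e g₀) * V e h) * star (V e h)) *
        (star (V e g₀) * V e g₀) := by rw [h2, mul_one]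
    _ = _ := by simp only [mul_assoc]

end R_modaux

open R_modaux in
theorem prove_R_mod : R_mod := by
  intro H _ _ _ M P C hP z hz n e heM he hze
  obtain ⟨hC, hPn, hPM, hPf⟩ := hP
  have hsm : ∀ (c : ℂ) (x : H →L[ℂ] H), x ∈ M → c • x ∈ M :=
    fun c x hx => M.toStarSubalgebra.smul_mem hx c
  have hzM : z ∈ M := hz.2.1
  have hVM : ∀ g : G n, V e g ∈ M := by
    intro g
    have h1 : V e g = ∑ i, (((g.2 i : ℤ) : ℂ)) • e (g.1 i) i + (1 - ∑ i, e i i) := rfl
    rw [h1]
    refine add_mem (sum_mem fun i _ => hsm _ _ (heM _ _)) (sub_mem (one_mem _)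
      (sum_mem fun i _ => heM _ _))
  have hcomm : ∀ g : G n, z * V e g = V e g * z := fun g => hz.2.2 _ (hVM g)
  have hN := card_pos n
  set N : ℝ := (Fintype.card (G n) : ℝ) with hNdef
  have hNC : (Fintype.card (G n) : ℂ) ≠ 0 := by
    have : (Fintype.card (G n) : ℝ) ≠ 0 := hN.ne'
    exact_mod_cast this
  have hV1 : ∀ g : G n, ‖V e g‖ ≤ 1 := fun g => T_grpaux.norm_U_le he g
  refine ⟨Qm P z e, ?_, ?_, ?_, ?_⟩
  · intro x
    rw [Qm_apply, norm_smul, norm_mul, norm_inv, Complex.norm_natCast]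
    have h1 : ‖∑ g : G n, ∑ h : G n, z * (star (V e g) * P (V e g * x * V e h) * star (V e h))‖ ≤
        ∑ g : G n, ∑ h : G n, C * ‖x‖ := by
      refine (norm_sum_le _ _).trans (Finset.sum_le_sum fun g _ => ?_)
      refine (norm_sum_le _ _).trans (Finset.sum_le_sum fun h _ => ?_)
      have a1 := norm_pr hz.1
      have a2 := hV1 g
      have a3 := hV1 h
      have b1 : ‖V e g * x * V e h‖ ≤ ‖x‖ := by
        calc ‖V e g * x * V e h‖ ≤ ‖V e g * x‖ * ‖V e h‖ := norm_mul_le _ _
          _ ≤ (‖V e g‖ * ‖x‖) * ‖V e h‖ := by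
            apply mul_le_mul_of_nonneg_right (norm_mul_le _ _) (norm_nonneg _)
          _ ≤ (1 * ‖x‖) * 1 := by
            apply mul_le_mul _ a3 (norm_nonneg _) (by positivity)
            exact mul_le_mul_of_nonneg_right a2 (norm_nonneg _)
          _ = ‖x‖ := by ring
      have b2 : ‖P (V e g * x * V e h)‖ ≤ C * ‖x‖ :=
        (hPn _).trans (mul_le_mul_of_nonneg_left b1 hC)
      calc ‖z * (star (V e g) * P (V e g * x * V e h) * star (V e h))‖
          ≤ ‖z‖ * ‖star (V e g) * P (V e g * x * V e h) * star (V e h)‖ := norm_mul_le _ _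
        _ ≤ ‖z‖ * (‖star (V e g)‖ * ‖P (V e g * x * V e h)‖ * ‖star (V e h)‖) := by
          apply mul_le_mul_of_nonneg_left _ (norm_nonneg _)
          refine (norm_mul_le _ _).trans ?_
          exact mul_le_mul_of_nonneg_right (norm_mul_le _ _) (norm_nonneg _)
        _ ≤ 1 * (1 * (C * ‖x‖) * 1) := by
          rw [norm_star, norm_star]
          apply mul_le_mul a1 _ (by positivity) (by norm_num)
          apply mul_le_mul _ a3 (norm_nonneg _) (by positivity)
          exact mul_le_mul a2 b2 (norm_nonneg _) (by norm_num)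
        _ = C * ‖x‖ := by ring
    rw [Finset.sum_const, Finset.sum_const, Finset.card_univ, nsmul_eq_mul, nsmul_eq_mul] at h1
    calc (Fintype.card (G n) : ℝ)⁻¹ * (Fintype.card (G n) : ℝ)⁻¹ * _
        ≤ N⁻¹ * N⁻¹ * (N * (N * (C * ‖x‖))) := by
          apply mul_le_mul_of_nonneg_left h1
          positivity
      _ = C * ‖x‖ := by field_simp
  · intro x
    constructor
    · rw [Qm_apply]
      apply hsm
      refine sum_mem fun g _ => sum_mem fun h _ => ?_
      exact mul_mem hzM (mul_mem (mul_mem (star_mem (hVM g)) (hPM _)) (star_mem (hVM h)))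
    · rw [Qm_apply, mul_smul_comm, Finset.mul_sum]
      congr 1
      apply Finset.sum_congr rfl
      intro g _
      rw [Finset.mul_sum]
      apply Finset.sum_congr rfl
      intro h _
      rw [← mul_assoc, hz.1.2]
  · intro m hm hzm
    rw [Qm_apply]
    have h1 : ∀ g h : G n, z * (star (V e g) * P (V e g * m * V e h) * star (V e h)) = m := by
      intro g h
      rw [hPf _ (mul_mem (mul_mem (hVM g) hm) (hVM h))]
      have h2 : star (V e g) * V e g = 1 := T_grpaux.star_mul_U he g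
      have h3 : V e h * star (V e h) = 1 := T_grpaux.mul_star_U he h
      calc z * (star (V e g) * (V e g * m * V e h) * star (V e h))
          = z * ((star (V e g) * V e g) * m * (V e h * star (V e h))) := by
            simp only [mul_assoc]
        _ = m := by rw [h2, h3, one_mul, mul_one, hzm]
    simp only [h1]
    rw [Finset.sum_const, Finset.sum_const, Finset.card_univ, ← Nat.cast_smul_eq_nsmul ℂ,
      ← Nat.cast_smul_eq_nsmul ℂ, smul_smul, smul_smul]
    have : (Fintype.card (G n) : ℂ)⁻¹ * (Fintype.card (G n) : ℂ)⁻¹ *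
        (Fintype.card (G n) : ℂ) * (Fintype.card (G n) : ℂ) = 1 := by
      field_simp
    rw [this, one_smul]
  · intro i j x
    have hf := T_grpaux.f_eq he j i
    constructor
    · rw [hf, smul_mul_assoc, sub_mul, map_smul, map_sub]
      rw [Qm_left P z e he _ (hcomm _), Qm_left P z e he _ (hcomm _)]
      rw [smul_mul_assoc, sub_mul]
    · rw [hf, mul_smul_comm, mul_sub, map_smul, map_sub]
      rw [Qm_right P z e he, Qm_right P z e he]
      rw [mul_smul_comm, mul_sub]

end H68R2.BP
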